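import Pool.Agent.H629.TA.Stm2

set_option autoImplicit false

/-! Project TA (helper629), part EI (helper396): existence of the process. -/

namespace Pool.Agent.H396.TA.EI

open Finset MeasureTheory ProbabilityTheory Preorder
open Pool.Agent.H629.TA
open scoped ENNReal

theorem mult_congr {m : ℕ} {h h' : Hist m} {k a b : ℕ} (hh : ∀ i, 3 ≤ i → i ≤ k → h i = h' i)
    (ha : a ≤ k) (hb : b ≤ k) : mult m h a b = mult m h' a b := by
  unfold mult
  split_ifs with h1 h2
  · rfl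
  · rfl
  · rw [hh (max a b) (by omega) (max_le ha hb)]

theorem deg_congr {m : ℕ} {h h' : Hist m} {k a : ℕ} (hh : ∀ i, 3 ≤ i → i ≤ k → h i = h' i)
    (ha : a ≤ k) : deg m h k a = deg m h' k a :=
  sum_congr rfl fun _ hb => mult_congr hh ha (mem_Icc.1 hb).2

theorem valid_congr {m : ℕ} {h h' : Hist m} {k : ℕ} (hh : ∀ i, 3 ≤ i → i ≤ k → h i = h' i)
    (hv : Valid m h k) : Valid m h' k := by
  intro i h3 hk l
  rw [← hh i h3 hk]
  exact hv i h3 hk l

/-- the weights -/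
noncomputable def pw {m : ℕ} (δ : ℝ) (h : Hist m) (k v : ℕ) : ℝ≥0∞ :=
  if v ∈ Icc 1 k then ENNReal.ofReal (wt m δ h k v / tot m δ k) else 0

theorem pw_congr {m : ℕ} {δ : ℝ} {h h' : Hist m} {k : ℕ} (hh : ∀ i, 3 ≤ i → i ≤ k → h i = h' i)
    (v : ℕ) : pw δ h k v = pw δ h' k v := by
  unfold pw
  split_ifs with hv
  · unfold wt
    rw [deg_congr hh (mem_Icc.1 hv).2]
  · rfl

theorem tot_pos {m : ℕ} {δ : ℝ} (hδ : 0 < δ) {k : ℕ} (hk : 2 ≤ k) : 0 < tot m δ k := by
  unfold tot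
  have h1 : (2 : ℝ) ≤ k := by exact_mod_cast hk
  have h2 : (0 : ℝ) ≤ m := Nat.cast_nonneg m
  have h3 : 0 ≤ 2 * (m : ℝ) * ((k : ℝ) - 1) := mul_nonneg (by positivity) (by linarith)
  have h4 : 0 < (k : ℝ) * δ := by positivity
  linarith

theorem wt_nonneg {m : ℕ} {δ : ℝ} (hδ : 0 < δ) (h : Hist m) (k v : ℕ) : 0 ≤ wt m δ h k v := by
  unfold wt
  positivity

theorem pw_sum (hTW : S_TW) {m : ℕ} {δ : ℝ} (hδ : 0 < δ) {h : Hist m} {k : ℕ} (hk : 2 ≤ k)
    (hv : Valid m h k) : ∑ v ∈ Icc 1 k, pw δ h k v = 1 := by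
  have h1 := (hTW m k h hk hv).2.1 δ
  have h2 := tot_pos (m := m) hδ hk
  have h3 : ∑ v ∈ Icc 1 k, pw δ h k v =
      ∑ v ∈ Icc 1 k, ENNReal.ofReal (wt m δ h k v / tot m δ k) :=
    sum_congr rfl fun v hv => if_pos hv
  rw [h3, ← ENNReal.ofReal_sum_of_nonneg (fun v _ => div_nonneg (wt_nonneg hδ h k v) h2.le),
    ← sum_div, h1, div_self h2.ne', ENNReal.ofReal_one]

/-- the law of one edge -/
noncomputable def pm (hTW : S_TW) {m : ℕ} {δ : ℝ} (hδ : 0 < δ) {h : Hist m} {k : ℕ} (hk : 2 ≤ k)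
    (hv : Valid m h k) : PMF ℕ :=
  PMF.ofFinset (pw δ h k) (Icc 1 k) (pw_sum hTW hδ hk hv) fun _ hv => if_neg hv

open Classical in
/-- the law of the edges of one vertex -/
noncomputable def nu (hTW : S_TW) {m : ℕ} {δ : ℝ} (hδ : 0 < δ) (h : Hist m) {k : ℕ} (hk : 2 ≤ k) :
    Measure (Fin m → ℕ) :=
  if hv : Valid m h k then Measure.pi fun _ : Fin m => (pm hTW hδ hk hv).toMeasure
  else Measure.dirac 0

instance nu_prob (hTW : S_TW) {m : ℕ} {δ : ℝ} (hδ : 0 < δ) (h : Hist m) {k : ℕ} (hk : 2 ≤ k) :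
    IsProbabilityMeasure (nu hTW hδ h hk) := by
  unfold nu
  split_ifs <;> infer_instance

theorem nu_apply (hTW : S_TW) {m : ℕ} {δ : ℝ} (hδ : 0 < δ) {h : Hist m} {k : ℕ} (hk : 2 ≤ k)
    (hv : Valid m h k) (j : Fin m → ℕ) : nu hTW hδ h hk {j} = ∏ l, pw δ h k (j l) := by
  unfold nu
  rw [dif_pos hv, Measure.pi_singleton]
  refine prod_congr rfl fun l _ => ?_
  rw [PMF.toMeasure_apply_singleton _ _ (measurableSet_singleton _)]
  rfl

/-- the state spaces -/
abbrev X (m : ℕ) : ℕ → Type := fun _ => Fin m → ℕ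

/-- the history of a finite trajectory -/
def hist {m : ℕ} (a : ℕ) (z : (i : Iic a) → X m i) : Hist m := fun k l =>
  if h : k - 2 ≤ a then z ⟨k - 2, mem_Iic.2 h⟩ l else 0

/-- the kernels -/
noncomputable def ka (hTW : S_TW) {m : ℕ} {δ : ℝ} (hδ : 0 < δ) (a : ℕ) :
    Kernel ((i : Iic a) → X m i) (X m (a + 1)) :=
  Kernel.ofFunOfCountable fun z => nu hTW hδ (hist a z) (k := a + 2) (by omega)

instance ka_markov (hTW : S_TW) {m : ℕ} {δ : ℝ} (hδ : 0 < δ) (a : ℕ) :
    IsMarkovKernel (ka (m := m) hTW hδ a) :=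
  ⟨fun z => nu_prob hTW hδ (hist a z) _⟩

/-- the measure -/
noncomputable def PP (hTW : S_TW) (m : ℕ) {δ : ℝ} (hδ : 0 < δ) : Measure ((n : ℕ) → X m n) :=
  Kernel.trajMeasure (Measure.dirac (0 : Fin m → ℕ)) (ka hTW hδ)

instance PP_prob (hTW : S_TW) (m : ℕ) {δ : ℝ} (hδ : 0 < δ) :
    IsProbabilityMeasure (PP hTW m hδ) := by
  unfold PP
  infer_instance

/-- the event that the history up to the vertex `a + 2` is `h` -/
def Ev {m : ℕ} (a : ℕ) (h : Hist m) : Set ((n : ℕ) → X m n) :=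
  {x | ∀ i ∈ Icc 3 (a + 2), ∀ l, x (i - 2) l = h i l}

theorem step (hTW : S_TW) {m : ℕ} {δ : ℝ} (hδ : 0 < δ) (a : ℕ) (h : Hist m)
    (hv : Valid m h (a + 2)) :
    PP hTW m hδ (Ev (a + 1) h) = PP hTW m hδ (Ev a h) * ∏ l, pw δ h (a + 2) (h (a + 3) l) := by
  obtain ⟨s, hs⟩ : ∃ s : Set ((i : Iic a) → X m i),
      s = {z | ∀ i ∈ Icc 3 (a + 2), ∀ l, hist a z i l = h i l} := ⟨_, rfl⟩
  have hsm : MeasurableSet s := MeasurableSet.of_discrete
  have hjm : MeasurableSet ({h (a + 3)} : Set (X m (a + 1))) := measurableSet_singleton _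
  have hfr : Measurable (frestrictLe (π := X m) a) := measurable_frestrictLe a
  have e1 : Ev a h = frestrictLe (π := X m) a ⁻¹' s := by
    rw [hs]
    ext x
    show (∀ i ∈ Icc 3 (a + 2), ∀ l, x (i - 2) l = h i l) ↔
      ∀ i ∈ Icc 3 (a + 2), ∀ l, hist a (frestrictLe (π := X m) a x) i l = h i l
    refine forall_congr' fun i => forall_congr' fun hi => forall_congr' fun l => ?_
    rw [mem_Icc] at hi
    have h1 : hist a (frestrictLe (π := X m) a x) i l = x (i - 2) l := by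
      unfold hist
      rw [dif_pos (by omega)]
      rfl
    rw [h1]
  have e2 : Ev (a + 1) h = (fun x : (n : ℕ) → X m n => (frestrictLe (π := X m) a x, x (a + 1))) ⁻¹'
      (s ×ˢ ({h (a + 3)} : Set (X m (a + 1)))) := by
    have h1 : Ev (a + 1) h = Ev a h ∩ {x | x (a + 1) = h (a + 3)} := by
      ext x
      show (∀ i ∈ Icc 3 (a + 1 + 2), ∀ l, x (i - 2) l = h i l) ↔
        (∀ i ∈ Icc 3 (a + 2), ∀ l, x (i - 2) l = h i l) ∧ x (a + 1) = h (a + 3)
      constructor
      · intro hx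
        refine ⟨fun i hi l => hx i ?_ l, funext fun l => ?_⟩
        · rw [mem_Icc] at hi ⊢
          omega
        · exact hx (a + 3) (by rw [mem_Icc]; omega) l
      · rintro ⟨hx1, hx2⟩ i hi l
        rw [mem_Icc] at hi
        rcases Nat.lt_or_ge (a + 2) i with h2 | h2
        · have h3 : i = a + 3 := by omega
          subst h3
          exact congrFun hx2 l
        · exact hx1 i (by rw [mem_Icc]; omega) l
    rw [h1, e1]
    rfl
  have e3 : (PP hTW m hδ).map (frestrictLe (π := X m) a) ⊗ₘ ka hTW hδ a =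
      (PP hTW m hδ).map (fun x => (frestrictLe (π := X m) a x, x (a + 1))) :=
    Kernel.map_frestrictLe_trajMeasure_compProd_eq_map_trajMeasure
  have hmp : IsProbabilityMeasure ((PP hTW m hδ).map (frestrictLe (π := X m) a)) :=
    Measure.isProbabilityMeasure_map hfr.aemeasurable
  have hme : Measurable (fun x : (n : ℕ) → X m n => (frestrictLe (π := X m) a x, x (a + 1))) :=
    hfr.prodMk (measurable_pi_apply (a + 1))
  rw [e2, ← Measure.map_apply hme (hsm.prod hjm), ← e3, Measure.compProd_apply_prod hsm hjm, e1,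
    ← Measure.map_apply hfr hsm]
  have e4 : ∀ z ∈ s, ka hTW hδ a z {h (a + 3)} = ∏ l, pw δ h (a + 2) (h (a + 3) l) := by
    intro z hz
    rw [hs] at hz
    have h1 : ∀ i, 3 ≤ i → i ≤ a + 2 → h i = hist a z i := fun i h3 h4 =>
      funext fun l => (hz i (mem_Icc.2 ⟨h3, h4⟩) l).symm
    show nu hTW hδ (hist a z) (k := a + 2) (by omega) {h (a + 3)} = _
    rw [nu_apply hTW hδ _ (valid_congr h1 hv)]
    exact prod_congr rfl fun l _ => (pw_congr h1 _).symm
  rw [setLIntegral_congr_fun hsm e4, setLIntegral_const, mul_comm]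

theorem null (hTW : S_TW) {m : ℕ} {δ : ℝ} (hδ : 0 < δ) (h : Hist m) (a : ℕ) :
    ¬ Valid m h (a + 2) → PP hTW m hδ (Ev a h) = 0 := by
  induction a with
  | zero =>
    intro hv
    exact absurd (fun i h3 h2 _ => by omega) hv
  | succ a ih =>
    intro hv
    by_cases hv' : Valid m h (a + 2)
    · rw [step hTW hδ a h hv']
      have h1 : ∃ l, h (a + 3) l ∉ Icc 1 (a + 2) := by
        by_contra hcon
        push Not at hcon
        apply hv
        intro i h3 hi l
        rcases Nat.lt_or_ge (a + 2) i with h2 | h2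
        · have h4 : i = a + 3 := by omega
          subst h4
          exact hcon l
        · exact hv' i h3 h2 l
      obtain ⟨l, hl⟩ := h1
      have h2 : ∏ l, pw δ h (a + 2) (h (a + 3) l) = 0 := prod_eq_zero (mem_univ l) (if_neg hl)
      rw [h2, mul_zero]
    · refine measure_mono_null ?_ (ih hv')
      intro x hx i hi l
      exact hx i (by rw [mem_Icc] at hi ⊢; omega) l

theorem t_EI : S_TW → S_EI := by
  intro hTW m δ hm hδ
  refine ⟨(n : ℕ) → X m n, inferInstance, PP hTW m hδ, fun k l x => x (k - 2) l, ?_⟩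
  refine ⟨PP_prob hTW m hδ, fun k l => (measurable_pi_apply l).comp (measurable_pi_apply (k - 2)),
    ?_⟩
  intro k hk h
  obtain ⟨a, rfl⟩ : ∃ a, k = a + 3 := ⟨k - 3, by omega⟩
  show (PP hTW m hδ).real (Ev (a + 1) h) = (PP hTW m hδ).real (Ev a h) * _
  by_cases hv : Valid m h (a + 2)
  · unfold Measure.real
    rw [step hTW hδ a h hv, ENNReal.toReal_mul, ENNReal.toReal_prod]
    congr 1
    refine prod_congr rfl fun l _ => ?_
    unfold pw
    have h1 : a + 3 - 1 = a + 2 := rfl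
    rw [h1]
    split_ifs with h2
    · rw [ENNReal.toReal_ofReal (div_nonneg (wt_nonneg hδ h _ _) (tot_pos hδ (by omega)).le)]
      unfold wt tot
      congr 1
      push_cast
      ring
    · rfl
  · have hv3 : ¬ Valid m h (a + 1 + 2) := fun h1 => hv fun i h3 h4 l => h1 i h3 (by omega) l
    unfold Measure.real
    rw [null hTW hδ h a hv, null hTW hδ h (a + 1) hv3, ENNReal.toReal_zero, zero_mul]

end Pool.Agent.H396.TA.EI
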